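import Pool.Agent.Q107.PP.Stmts

/-!
# Components modulo 5 and the exact formulas
-/

set_option autoImplicit false

namespace Pool.Agent.Q107.PP

open Finset PowerSeries Filter Topology
open scoped PowerSeries.WithPiTopology
open Pool.Agent.Q107.OD

/-- component `r` modulo 5 -/
noncomputable def V (r : ℕ) (F : ℤ⟦X⟧) : ℤ⟦X⟧ := PowerSeries.mk fun n => coeff (5 * n + r) F

/-- substitution `q ↦ q⁵` -/
noncomputable def e5 : ℤ⟦X⟧ →ₐ[ℤ] ℤ⟦X⟧ := expand 5 (by norm_num)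

theorem coeff_V (r : ℕ) (F : ℤ⟦X⟧) (n : ℕ) : coeff n (V r F) = coeff (5 * n + r) F := by
  rw [V, coeff_mk]

theorem coeff_e5 (F : ℤ⟦X⟧) (n : ℕ) : coeff n (e5 F) = if 5 ∣ n then coeff (n / 5) F else 0 :=
  coeff_expand 5 _ F

theorem V_mul (r : ℕ) (hr : r < 5) (F H : ℤ⟦X⟧) : V r (F * e5 H) = V r F * H := by
  ext n
  rw [coeff_V, coeff_mul, coeff_mul]
  symm
  apply Finset.sum_of_injOn (fun p : ℕ × ℕ => (5 * p.1 + r, 5 * p.2))
  · intro p _ q _ h
    simp only [Prod.mk.injEq] at h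
    ext <;> omega
  · intro p hp
    rw [mem_coe, HasAntidiagonal.mem_antidiagonal] at hp ⊢
    simp only
    omega
  · intro i hi hni
    rw [HasAntidiagonal.mem_antidiagonal] at hi
    rw [coeff_e5]
    split_ifs with h5
    · exfalso
      apply hni
      obtain ⟨c, hc⟩ := h5
      refine ⟨(n - c, c), ?_, ?_⟩
      · rw [mem_coe, HasAntidiagonal.mem_antidiagonal]
        simp only
        omega
      · ext
        · simp only
          omega
        · simp only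
          omega
    · rw [mul_zero]
  · intro p _
    simp only
    rw [coeff_V, coeff_e5, if_pos (dvd_mul_right 5 _), Nat.mul_div_cancel_left _ (by norm_num)]

theorem V_add (r : ℕ) (F H : ℤ⟦X⟧) : V r (F + H) = V r F + V r H := by
  ext n; simp [coeff_V]

theorem V_sub (r : ℕ) (F H : ℤ⟦X⟧) : V r (F - H) = V r F - V r H := by
  ext n; simp [coeff_V]

theorem V_X_mul (F : ℤ⟦X⟧) : V 1 (X * F) = V 0 F := by
  ext n
  rw [coeff_V, coeff_V, coeff_succ_X_mul, add_zero]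

theorem V0_one : V 0 1 = 1 := by
  ext n
  rw [coeff_V, coeff_one, coeff_one]
  simp

theorem V0_X_pow (j : ℕ) (h0 : 0 < j) (h5 : j < 5) : V 0 (X ^ j) = 0 := by
  ext n
  rw [coeff_V, coeff_X_pow, map_zero, if_neg (by omega)]

theorem num_ne (n : ℕ) (hn : n ≠ 0) : (n : ℤ⟦X⟧) ≠ 0 := by
  intro h
  have h2 := congrArg (coeff 0) h
  rw [← map_natCast (C (R := ℤ)) n, coeff_C, if_pos rfl, map_zero] at h2
  exact hn (by exact_mod_cast h2)

theorem two_ne : (2 : ℤ⟦X⟧) ≠ 0 := by exact_mod_cast num_ne 2 (by norm_num)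
theorem eight_ne : (8 : ℤ⟦X⟧) ≠ 0 := by exact_mod_cast num_ne 8 (by norm_num)
theorem four_ne : (4 : ℤ⟦X⟧) ≠ 0 := by exact_mod_cast num_ne 4 (by norm_num)

theorem e5_two : e5 2 = 2 := map_ofNat e5 2
theorem e5_X : e5 (X : ℤ⟦X⟧) = X ^ 5 := expand_X 5 _

theorem V0_e5 (F : ℤ⟦X⟧) : V 0 (e5 F) = F := by
  have := V_mul 0 (by norm_num) 1 F
  rwa [V0_one, one_mul, one_mul] at this

/-- the dissection of `φ²` gives `φ(q⁵)² - φ² = 4 q A₁ A₃` -/
theorem D2 (hC : TaskC) (hD0 : TaskD0) : e5 (phi ^ 2) - phi ^ 2 = 4 * X * (A1 * A3) := by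
  have h25 : expand 25 (by norm_num) phi = e5 (e5 phi) := expand_mul 5 (by norm_num) 5 (by norm_num) phi
  have hD : phi = e5 (e5 phi) - 2 * X * e5 A3 + 2 * X ^ 4 * e5 A1 := by
    rw [← h25]
    exact hD0
  have hsq : phi ^ 2 = e5 ((e5 phi) ^ 2 - 8 * X * (A1 * A3)) + X ^ 2 * e5 (4 * A3 ^ 2) +
      X ^ 3 * e5 (4 * X * A1 ^ 2) - X ^ 1 * e5 (4 * (e5 phi * A3)) +
      X ^ 4 * e5 (4 * (e5 phi * A1)) := by
    have e1 : e5 ((e5 phi) ^ 2 - 8 * X * (A1 * A3)) =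
        (e5 (e5 phi)) ^ 2 - 8 * X ^ 5 * (e5 A1 * e5 A3) := by
      simp only [map_sub, map_mul, map_pow, map_ofNat, e5_X]
    have e2 : e5 (4 * A3 ^ 2) = 4 * (e5 A3) ^ 2 := by
      simp only [map_mul, map_pow, map_ofNat]
    have e3 : e5 (4 * X * A1 ^ 2) = 4 * X ^ 5 * (e5 A1) ^ 2 := by
      simp only [map_mul, map_pow, map_ofNat, e5_X]
    have e4 : e5 (4 * (e5 phi * A3)) = 4 * (e5 (e5 phi) * e5 A3) := by
      simp only [map_mul, map_ofNat]
    have e6 : e5 (4 * (e5 phi * A1)) = 4 * (e5 (e5 phi) * e5 A1) := by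
      simp only [map_mul, map_ofNat]
    rw [e1, e2, e3, e4, e6]
    nth_rewrite 1 [hD]
    ring
  have hV : V 0 (phi ^ 2) = (e5 phi) ^ 2 - 8 * X * (A1 * A3) := by
    nth_rewrite 1 [hsq]
    rw [V_add, V_sub, V_add, V_add, V0_e5, V_mul 0 (by norm_num), V_mul 0 (by norm_num),
      V_mul 0 (by norm_num), V_mul 0 (by norm_num), V0_X_pow 2 (by norm_num) (by norm_num),
      V0_X_pow 3 (by norm_num) (by norm_num), V0_X_pow 1 (by norm_num) (by norm_num),
      V0_X_pow 4 (by norm_num) (by norm_num)]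
    ring
  have hV2 : V 0 (phi ^ 2) = 2 * phi ^ 2 - e5 (phi ^ 2) := by
    ext n
    rw [coeff_V, add_zero, hC n, map_sub, coeff_e5]
    congr 1
    rw [← map_ofNat (C (R := ℤ)), coeff_C_mul]
  rw [hV2, map_pow] at hV
  rw [map_pow]
  have h2 : (2 : ℤ⟦X⟧) * ((e5 phi) ^ 2 - phi ^ 2) = 2 * (4 * X * (A1 * A3)) := by
    linear_combination -hV
  exact mul_left_cancel₀ two_ne h2

theorem constantCoeff_E1 : constantCoeff E1 = 1 := by
  have h : coeff 0 E1 = 1 := by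
    have h1 := coeff_pentagonalSeries_pentagonal (R := ℤ) 0
    have e : pentagonal 0 = 0 := by simp [pentagonal]
    rw [e] at h1
    rw [E1, h1]
    simp
  rwa [coeff_zero_eq_constantCoeff_apply] at h

theorem E1_ne : E1 ≠ 0 := by
  intro h
  have := constantCoeff_E1
  rw [h, map_zero] at this
  exact zero_ne_one this

theorem expand_ne (k : ℕ) (hk : k ≠ 0) : expand k hk E1 ≠ 0 := by
  intro h
  have h2 : constantCoeff (expand k hk E1) = 1 := by
    rw [constantCoeff_expand, constantCoeff_E1]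
  rw [h, map_zero] at h2
  exact zero_ne_one h2

theorem E2_ne : E2 ≠ 0 := expand_ne 2 _
theorem E5_ne : E5 ≠ 0 := expand_ne 5 _

/-- `P φ = f₁` -/
theorem Pd_phi (hF2 : TaskF2) : Pd * phi = E1 := by
  refine mul_right_cancel₀ E1_ne ?_
  have h : Pd * E1 = E2 := hF2
  linear_combination phi * h - gauss

theorem e5_E1 : e5 E1 = E5 := rfl

theorem e5_E2 : e5 E2 = E10 := (expand_mul 5 (by norm_num) 2 (by norm_num) E1).symm

/-- `P φ(q⁵)² = f₁ φ + 4 q ψ(q⁵) f₁₀` -/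
theorem beta (hPsi : TaskPsi) (hC : TaskC) (hD0 : TaskD0) (hD1 : TaskD1) (hF2 : TaskF2) :
    Pd * e5 (phi ^ 2) = E1 * phi + 4 * X * e5 (psi * E2) := by
  have h2 := D2 hC hD0
  have hd : E2 * E5 * (A1 * A3) = E1 * E10 ^ 3 := hD1
  have hp : Pd * E1 = E2 := hF2
  have hpp := Pd_phi hF2
  have hs : E5 * e5 psi = E10 ^ 2 := by
    have := congrArg e5 hPsi
    rw [map_mul, map_pow, e5_E1, e5_E2] at this
    exact this
  have h3 : Pd * (A1 * A3) = e5 (psi * E2) := by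
    rw [map_mul, e5_E2]
    refine mul_right_cancel₀ (mul_ne_zero E5_ne E1_ne) ?_
    linear_combination E5 * (A1 * A3) * hp + hd - E10 * E1 * hs
  linear_combination Pd * h2 + 4 * X * h3 + phi * hpp

theorem V1_h (hA : TaskA) : V 1 (E1 * phi) = -4 * (psi * E2) + e5 (E1 * phi) := by
  ext n
  rw [coeff_V, hA n, map_add, coeff_e5]
  congr 1
  have : (-4 : ℤ⟦X⟧) = C (-4 : ℤ) := by simp
  rw [this, coeff_C_mul]

theorem V1_c (hB : TaskB) : V 1 (T3 * phi) = -12 * (T1 * E2) + 5 * e5 (T3 * phi) := by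
  ext n
  rw [coeff_V, hB n, map_add]
  have h1 : (-12 : ℤ⟦X⟧) = C (-12 : ℤ) := by simp
  have h2 : (5 : ℤ⟦X⟧) = C (5 : ℤ) := by simp
  rw [h1, h2, coeff_C_mul, coeff_C_mul, coeff_e5]

theorem V0_a (hC : TaskC) : V 0 (phi ^ 2) = 2 * phi ^ 2 - e5 (phi ^ 2) := by
  ext n
  rw [coeff_V, add_zero, hC n, map_sub, coeff_e5]
  congr 1
  rw [← map_ofNat (C (R := ℤ)), coeff_C_mul]

theorem T3_eq' : T3 = E1 * phi ^ 2 := by
  refine mul_left_cancel₀ (pow_ne_zero 2 E2_ne) ?_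
  have h := five
  linear_combination -h + E1 * (E1 * E1 + E2 * phi) * gauss

theorem T1_eq' (hPsi : TaskPsi) : T1 = psi * phi ^ 2 := by
  refine mul_left_cancel₀ E1_ne ?_
  have h := jacobi
  have hp : E1 * psi = E2 ^ 2 := hPsi
  linear_combination -E1 * h + (E1 * E1 + E2 * phi) * gauss - phi ^ 2 * hp

/-- `P(5n+1)` -/
theorem V1_P (hPsi : TaskPsi) (hA : TaskA) (hC : TaskC) (hD0 : TaskD0) (hD1 : TaskD1)
    (hF2 : TaskF2) : V 1 Pd * phi ^ 2 = e5 (E1 * phi) := by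
  have h := congrArg (V 1) (beta hPsi hC hD0 hD1 hF2)
  have e : 4 * X * e5 (psi * E2) = X * (1 * e5 (4 * (psi * E2))) := by
    rw [map_mul e5 4, map_ofNat]
    ring
  rw [V_mul 1 (by norm_num), V_add, V1_h hA, e, V_X_mul, V_mul 0 (by norm_num), V0_one] at h
  linear_combination h

theorem gamma (hPsi : TaskPsi) (hA : TaskA) (hB : TaskB) (hC : TaskC) (hD0 : TaskD0)
    (hD1 : TaskD1) (hF2 : TaskF2) :
    4 * (psi * E2) * e5 (phi ^ 2) = e5 (E1 * phi) * (5 * e5 (phi ^ 2) - phi ^ 2) := by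
  have hb := beta hPsi hC hD0 hD1 hF2
  have hpp := Pd_phi hF2
  have h1 : E1 * phi * e5 (phi ^ 2) = T3 * phi + X * (phi ^ 2 * e5 (4 * (psi * E2))) := by
    rw [map_mul e5 4, map_ofNat, T3_eq']
    linear_combination phi ^ 2 * hb - phi * e5 (phi ^ 2) * hpp
  have h2 := congrArg (V 1) h1
  rw [V_mul 1 (by norm_num), V_add, V_X_mul, V_mul 0 (by norm_num), V1_h hA, V1_c hB, V0_a hC,
    T3_eq', T1_eq' hPsi] at h2
  have h3 : e5 (E1 * phi ^ 2 * phi) = e5 (E1 * phi) * e5 (phi ^ 2) := by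
    rw [← map_mul]
    congr 1
    ring
  rw [h3] at h2
  linear_combination h2

/-- `8 DSOME = P - f₁ φ³` -/
theorem eight_G (hF1 : TaskF1) (hF2 : TaskF2) (hF3 : TaskF3) : 8 * G = Pd - T3 * phi := by
  have h1 : G = Pd * L := hF1
  have h3 : 8 * L = 1 - phi ^ 4 := hF3
  have hpp := Pd_phi hF2
  rw [T3_eq']
  linear_combination 8 * h1 + Pd * h3 - phi ^ 3 * hpp

theorem main8 (hPsi : TaskPsi) (hA : TaskA) (hB : TaskB) (hC : TaskC) (hD0 : TaskD0)
    (hD1 : TaskD1) (hF1 : TaskF1) (hF2 : TaskF2) (hF3 : TaskF3) :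
    8 * (V 1 G * phi ^ 2) = e5 (E1 * phi) + 12 * (psi * E2) * phi ^ 4
      - 5 * (e5 (E1 * phi) * e5 (phi ^ 2)) * phi ^ 2 := by
  have h := congrArg (V 1) (eight_G hF1 hF2 hF3)
  have e : 8 * G = G * e5 8 := by
    rw [map_ofNat]
    ring
  rw [e, V_mul 1 (by norm_num), V_sub, V1_c hB, T3_eq', T1_eq' hPsi] at h
  have h3 : e5 (E1 * phi ^ 2 * phi) = e5 (E1 * phi) * e5 (phi ^ 2) := by
    rw [← map_mul]
    congr 1
    ring
  rw [h3] at h
  have hp := V1_P hPsi hA hC hD0 hD1 hF2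
  linear_combination phi ^ 2 * h + hp

end Pool.Agent.Q107.PP
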