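import Pool.Agent.Q107.PP.Fin2
import Pool.Agent.PP107.TaskA
import Pool.Agent.PP107.TaskB
import Pool.Agent.PP107.TaskC
import Pool.Agent.PP107.TaskD0
import Pool.Agent.PP107.TaskD1
import Pool.Agent.PP107.TaskF1
import Pool.Agent.PP107.TaskF2
import Pool.Agent.PP107.TaskF3
import Pool.Agent.PP107.TaskF3a
import Pool.Agent.PP107.TaskF3b
import Pool.Agent.PP107.TaskF3c
import Pool.Agent.PP107.TaskF3d
import Pool.Agent.PP107.TaskF4
import Pool.Agent.PP107.TaskJTP
import Pool.Agent.PP107.TaskPsi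
import Pool.Agent.PP107.TaskPsiZ

/-!
# Assembly for MP_496c03_nt
-/

set_option autoImplicit false

namespace Pool.Agent.Q107.PP

open Pool.Agent.PP107

theorem all (k : ℕ) (hk5 : ¬ 5 ∣ k) (hk2 : k % 2 = 0) :
    (8 : ℤ) ∣ DS (5 * k + 1) ∧ (k % 4 = 2 → (16 : ℤ) ∣ DS (5 * k + 1)) :=
  final TaskPsi.main (TaskA.main TaskPsiZ.main) TaskB.main TaskC.main TaskD0.main (TaskD1.main TaskJTP.main) TaskF1.main
    TaskF2.main (TaskF3.main TaskF3a.main TaskF3b.main TaskF3c.main TaskF3d.main TaskPsi.main)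
    TaskF4.main k hk5 hk2

end Pool.Agent.Q107.PP
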