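import Pool.Agent.Q107.PP.Alg

/-!
# The 2-adic part: congruences modulo 8 and 16
-/

set_option autoImplicit false

namespace Pool.Agent.Q107.PP

open Finset PowerSeries Filter Topology
open scoped PowerSeries.WithPiTopology
open Pool.Agent.Q107.OD

theorem c2 (n : ℕ) (F : ℤ⟦X⟧) : coeff n (2 * F) = 2 * coeff n F := by
  rw [← map_ofNat (C (R := ℤ)), coeff_C_mul]

theorem c4 (n : ℕ) (F : ℤ⟦X⟧) : coeff n (4 * F) = 4 * coeff n F := by
  rw [← map_ofNat (C (R := ℤ)), coeff_C_mul]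

theorem c8 (n : ℕ) (F : ℤ⟦X⟧) : coeff n (8 * F) = 8 * coeff n F := by
  rw [← map_ofNat (C (R := ℤ)), coeff_C_mul]

theorem c16 (n : ℕ) (F : ℤ⟦X⟧) : coeff n (16 * F) = 16 * coeff n F := by
  rw [← map_ofNat (C (R := ℤ)), coeff_C_mul]

/-- `φ = 1 + 2 s` -/
theorem exists_s : ∃ s : ℤ⟦X⟧, phi = 1 + 2 * s := by
  have h : ∀ d, (2 : ℤ) ∣ coeff d (phi - 1) := by
    intro d
    have ht := (WithPiTopology.tendsto_iff_coeff_tendsto ℤ _ _ _).1 tendsto_A d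
    rw [nhds_discrete, tendsto_pure] at ht
    obtain ⟨n, hn⟩ := ht.exists
    rw [map_sub, ← hn, A, map_add, c2]
    exact ⟨_, by rw [add_sub_cancel_left]⟩
  refine ⟨PowerSeries.mk fun d => coeff d (phi - 1) / 2, ?_⟩
  ext d
  rw [map_add, c2, coeff_mk]
  have := h d
  rw [map_sub] at this ⊢
  omega

theorem constantCoeff_phi : constantCoeff phi = 1 := by
  have h := congrArg (constantCoeff (R := ℤ)) gauss
  have h2 : constantCoeff E2 = 1 := by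
    rw [E2, constantCoeff_expand, constantCoeff_E1]
  rw [map_mul, map_mul, constantCoeff_E1, h2, one_mul, one_mul] at h
  exact h.symm

theorem exists_inv : ∃ u : ℤ⟦X⟧, phi ^ 2 * e5 (phi ^ 2) * u = 1 := by
  have h : IsUnit (phi ^ 2 * e5 (phi ^ 2)) := by
    rw [isUnit_iff_constantCoeff]
    have : constantCoeff (e5 (phi ^ 2)) = constantCoeff (phi ^ 2) := constantCoeff_expand 5 _ _
    rw [map_mul, this, map_pow, constantCoeff_phi]
    simp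
  obtain ⟨u, hu⟩ := h
  exact ⟨(u⁻¹ : (ℤ⟦X⟧)ˣ), by rw [← hu, Units.mul_inv]⟩

theorem dvd_expand_mul (p : ℕ) (hp : p ≠ 0) (F B : ℤ⟦X⟧) (m : ℤ) (k : ℕ)
    (H : ∀ j, j ≤ k → p ∣ k - j → m ∣ coeff j B) : m ∣ coeff k (expand p hp F * B) := by
  rw [coeff_mul]
  refine Finset.dvd_sum fun i hi => ?_
  rw [HasAntidiagonal.mem_antidiagonal] at hi
  rw [coeff_expand]
  split_ifs with h
  · have : k - i.2 = i.1 := by omega
    exact (H i.2 (by omega) (by rwa [this])).mul_left _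
  · rw [zero_mul]
    exact dvd_zero _

theorem coeff_e5_zero (F : ℤ⟦X⟧) (k : ℕ) (hk : ¬ 5 ∣ k) : coeff k (e5 F) = 0 := by
  rw [coeff_e5, if_neg hk]

theorem E4_eq : E4 = expand 2 (by norm_num) E2 := expand_mul 2 (by norm_num) 2 (by norm_num) E1

theorem E2_sq (s : ℤ⟦X⟧) (hs : phi = 1 + 2 * s) :
    E2 ^ 2 = E4 * (1 + 2 * expand 2 (by norm_num) s) := by
  have h := congrArg (expand 2 (by norm_num : (2 : ℕ) ≠ 0) (R := ℤ)) gauss
  rw [map_mul, map_mul, ← E4_eq, hs, map_add, map_mul, map_one, map_ofNat] at h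
  have : (expand 2 (by norm_num : (2 : ℕ) ≠ 0) E1 : ℤ⟦X⟧) = E2 := rfl
  rw [this] at h
  rw [sq]
  exact h

theorem even_DS (hF4 : TaskF4) (j : ℕ) (hj : j % 2 = 0) : (2 : ℤ) ∣ DS j := by
  have h := hF4 j
  obtain ⟨c, hc⟩ := h
  obtain ⟨i, hi⟩ : ∃ i : ℕ, j = 2 * i := ⟨j / 2, by omega⟩
  have hj2 : (j : ℤ) = 2 * i := by exact_mod_cast hi
  refine ⟨2 * c + i * Q j, ?_⟩
  rw [hj2] at hc
  linear_combination hc

theorem two_DS (hF4 : TaskF4) (j : ℕ) (hj : j % 4 = 2) : (4 : ℤ) ∣ DS j - 2 * Q j := by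
  have h := hF4 j
  obtain ⟨c, hc⟩ := h
  obtain ⟨i, hi⟩ : ∃ i : ℕ, j = 4 * i + 2 := ⟨j / 4, by omega⟩
  have hj2 : (j : ℤ) = 4 * i + 2 := by exact_mod_cast hi
  refine ⟨c + i * Q j, ?_⟩
  rw [hj2] at hc
  linear_combination hc

/-- the two congruences -/
theorem final (hPsi : TaskPsi) (hA : TaskA) (hB : TaskB) (hC : TaskC) (hD0 : TaskD0)
    (hD1 : TaskD1) (hF1 : TaskF1) (hF2 : TaskF2) (hF3 : TaskF3) (hF4 : TaskF4) (k : ℕ)
    (hk5 : ¬ 5 ∣ k) (hk2 : k % 2 = 0) :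
    (8 : ℤ) ∣ DS (5 * k + 1) ∧ (k % 4 = 2 → (16 : ℤ) ∣ DS (5 * k + 1)) := by
  obtain ⟨s, hs⟩ := exists_s
  obtain ⟨u, hu⟩ := exists_inv
  set x : ℤ⟦X⟧ := s + s ^ 2 with hx
  have ha : phi ^ 2 = 1 + 4 * x := by
    rw [hs, hx]
    ring
  set y : ℤ⟦X⟧ := e5 x with hy
  have hb : e5 (phi ^ 2) = 1 + 4 * y := by
    rw [ha, map_add, map_mul, map_one, map_ofNat]
  have hg := gamma hPsi hA hB hC hD0 hD1 hF2
  have hm := main8 hPsi hA hB hC hD0 hD1 hF1 hF2 hF3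
  have h8 := eight_G hF1 hF2 hF3
  have hpp := Pd_phi hF2
  have hp : Pd * E1 = E2 := hF2
  have hpsi : E1 * psi = E2 ^ 2 := hPsi
  have h4 : phi ^ 4 = (1 + 4 * x) ^ 2 := by
    rw [← ha]
    ring
  rw [h4, hb, ha] at hm
  rw [hb, ha] at hg
  rw [hb, ha] at hu
  set h5 : ℤ⟦X⟧ := e5 (E1 * phi) with hh5
  set Ps : ℤ⟦X⟧ := psi * E2 with hPs
  have hw : Ps * (1 + 4 * y) = h5 * (1 + 5 * y - x) := by
    refine mul_left_cancel₀ four_ne ?_
    linear_combination hg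
  have hW : V 1 G * ((1 + 4 * x) * (1 + 4 * y)) =
      h5 * (1 + 3 * y + 8 * x + 40 * x * y + 12 * x ^ 2 + 120 * x ^ 2 * y - 24 * x ^ 3
        - 10 * y ^ 2 - 40 * x * y ^ 2) := by
    refine mul_left_cancel₀ eight_ne ?_
    linear_combination (1 + 4 * y) * hm + 12 * (1 + 4 * x) ^ 2 * hw
  have hG : G = -(Pd * (x + 2 * x ^ 2)) := by
    refine mul_left_cancel₀ eight_ne ?_
    have e : T3 * phi = Pd * (1 + 4 * x) ^ 2 := by
      rw [T3_eq', ← h4]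
      linear_combination -(phi ^ 3) * hpp
    rw [h8, e]
    ring
  have hPd : E2 ^ 2 * Pd = Ps := by
    refine mul_right_cancel₀ E1_ne ?_
    rw [hPs]
    linear_combination E2 ^ 2 * hp - E2 * hpsi
  set Rr : ℤ⟦X⟧ := E2 ^ 2 * G with hRr
  have hR : Rr * (1 + 4 * y) = -(h5 * (1 + 5 * y - x) * (x + 2 * x ^ 2)) := by
    rw [hRr, hG, ← hw, ← hPd]
    ring
  have hfin : V 1 G = h5 * (1 - y + 10 * y ^ 2 + 8 * y ^ 3) + 8 * (h5 * x) + 4 * Rr +
      16 * (u * (h5 * (-y ^ 2 - 3 * y ^ 3 - 2 * y ^ 4 + x * y - 4 * x * y ^ 2 - 12 * x * y ^ 3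
        - 8 * x * y ^ 4 + 7 * x ^ 2 * y - x ^ 3 + 10 * x ^ 3 * y - 2 * x ^ 4))) := by
    have h1 : (1 + 4 * x) * (1 + 4 * y) * (V 1 G - h5 * (1 - y + 10 * y ^ 2 + 8 * y ^ 3)
        - 8 * (h5 * x) - 4 * Rr) = 16 * (h5 * (-y ^ 2 - 3 * y ^ 3 - 2 * y ^ 4 + x * y
        - 4 * x * y ^ 2 - 12 * x * y ^ 3
        - 8 * x * y ^ 4 + 7 * x ^ 2 * y - x ^ 3 + 10 * x ^ 3 * y - 2 * x ^ 4)) := by
      linear_combination hW - 4 * (1 + 4 * x) * hR
    linear_combination u * h1 - (V 1 G - h5 * (1 - y + 10 * y ^ 2 + 8 * y ^ 3)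
        - 8 * (h5 * x) - 4 * Rr) * hu
  have hcoef : ∃ t : ℤ, DS (5 * k + 1) = 8 * coeff k (h5 * x) + 4 * coeff k Rr + 16 * t := by
    have h1 := congrArg (coeff k) hfin
    have h2 : h5 * (1 - y + 10 * y ^ 2 + 8 * y ^ 3) =
        e5 (E1 * phi * (1 - x + 10 * x ^ 2 + 8 * x ^ 3)) := by
      rw [hh5, hy]
      simp only [map_mul, map_add, map_sub, map_pow, map_one, map_ofNat]
    rw [h2, coeff_V, map_add, map_add, map_add, coeff_e5_zero _ k hk5, c8, c4, c16, zero_add] at h1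
    rw [G, coeff_mk] at h1
    exact ⟨_, h1⟩
  obtain ⟨t, ht⟩ := hcoef
  have hRe : (2 : ℤ) ∣ coeff k Rr := by
    have e : Rr = expand 2 (by norm_num) (E1 ^ 2) * G := by
      rw [hRr, map_pow]
      rfl
    rw [e]
    refine dvd_expand_mul 2 _ _ _ _ _ fun j hj hd => ?_
    rw [G, coeff_mk]
    exact even_DS hF4 j (by omega)
  constructor
  · obtain ⟨c, hc⟩ := hRe
    rw [ht, hc]
    exact ⟨coeff k (h5 * x) + c + 2 * t, by ring⟩
  · intro hk4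
    set s2 : ℤ⟦X⟧ := expand 2 (by norm_num) s with hs2
    have hE := E2_sq s hs
    rw [← hs2] at hE
    have hR2 : Rr = E4 * (G - 2 * Pd) + 2 * (E4 * Pd) + 2 * (expand 2 (by norm_num) (E2 * s) * G) := by
      rw [map_mul, ← E4_eq, ← hs2, hRr, hE]
      ring
    have hP2 : Ps = E4 * Pd + 2 * (E4 * s2 * Pd) := by
      rw [← hPd, hE]
      ring
    have hP3 : Ps = e5 (E1 * phi * (1 + 5 * x)) - h5 * x - 4 * (y * Ps) := by
      have e : e5 (E1 * phi * (1 + 5 * x)) = h5 * (1 + 5 * y) := by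
        rw [hh5, hy]
        simp only [map_mul, map_add, map_one, map_ofNat]
      rw [e]
      linear_combination hw
    have d1 : (4 : ℤ) ∣ coeff k (E4 * (G - 2 * Pd)) := by
      refine dvd_expand_mul 4 _ _ _ _ _ fun j hj hd => ?_
      rw [map_sub, c2, G, Pd, coeff_mk, coeff_mk]
      exact two_DS hF4 j (by omega)
    have d2 : (2 : ℤ) ∣ coeff k (expand 2 (by norm_num) (E2 * s) * G) := by
      refine dvd_expand_mul 2 _ _ _ _ _ fun j hj hd => ?_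
      rw [G, coeff_mk]
      exact even_DS hF4 j (by omega)
    have q1 := congrArg (coeff k) hR2
    have q2 := congrArg (coeff k) hP2
    have q3 := congrArg (coeff k) hP3
    rw [map_add, map_add, c2, c2] at q1
    rw [map_add, c2] at q2
    rw [map_sub, map_sub, coeff_e5_zero _ k hk5, c4] at q3
    obtain ⟨v1, hv1⟩ := d1
    obtain ⟨v2, hv2⟩ := d2
    rw [hv1, hv2] at q1
    rw [ht]
    refine ⟨v1 + v2 - coeff k (y * Ps) * 2 - coeff k (E4 * s2 * Pd) + t, ?_⟩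
    linear_combination 4 * q1 - 8 * q2 + 8 * q3

end Pool.Agent.Q107.PP
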