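import Pool.Agent.Q107.OD.Double

/-!
# Statements of the lemmas for the congruences of `DSOME` (MP_496c03_nt)

Everything lives in `ℤ⟦X⟧`. From `Pool.Agent.Q107.OD` (files `Gauss.lean`, `Double.lean`):
`E1` (Euler's product `f₁`, `hasProd_E1`, `hasSum_E1`), `E2 = f₂`, `phi = Σ (-1)^i X^(i²)`
(`hasSum_phi'`), `T1` (`hasSum_T1`, `jacobi : E1 ^ 3 = T1`), `T3` (`hasSum_T3`,
`five : E1 ^ 5 = E2 ^ 2 * T3`, `key : T1 * phi = E2 * T3`), `gauss : E1 * E1 = E2 * phi`, `sg`, `tri`,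
`hasSum_mul`, `summable_monomial`, `tendsto_of_dvd`.
-/

set_option autoImplicit false

namespace Pool.Agent.Q107.PP

open Finset PowerSeries Filter Topology
open scoped PowerSeries.WithPiTopology
open Pool.Agent.Q107.OD

noncomputable def E4 : ℤ⟦X⟧ := expand 4 (by norm_num) E1
noncomputable def E5 : ℤ⟦X⟧ := expand 5 (by norm_num) E1
noncomputable def E10 : ℤ⟦X⟧ := expand 10 (by norm_num) E1

/-- `ψ(q) = Σ_{n ≥ 0} q^(n(n+1)/2)` -/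
noncomputable def psi : ℤ⟦X⟧ := ∑' n : ℕ, monomial (tri (n : ℤ)) 1

/-- `ψ(q²)` -/
noncomputable def psi2 : ℤ⟦X⟧ := expand 2 (by norm_num) psi

/-- `φ(q) = Σ q^(i²)` -/
noncomputable def phiP : ℤ⟦X⟧ := ∑' i : ℤ, monomial (i.natAbs ^ 2) 1

/-- `f(-q, -q⁹)` -/
noncomputable def A1 : ℤ⟦X⟧ := ∑' j : ℤ, monomial (5 * j ^ 2 - 4 * j).toNat (sg j)

/-- `f(-q³, -q⁷)` -/
noncomputable def A3 : ℤ⟦X⟧ := ∑' j : ℤ, monomial (5 * j ^ 2 - 2 * j).toNat (sg j)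

/-- `q d/dq` -/
noncomputable def th (f : ℤ⟦X⟧) : ℤ⟦X⟧ := X * d⁄dX ℤ f

/-- number of partitions into distinct parts -/
def Q (n : ℕ) : ℕ := (Nat.Partition.distincts n).card

/-- `DSOME(n)` -/
def DS (n : ℕ) : ℤ := ∑ p ∈ Nat.Partition.distincts n,
  (p.parts.map fun a => if Odd a then (a : ℤ) else -(a : ℤ)).sum

noncomputable def Pd : ℤ⟦X⟧ := PowerSeries.mk fun n => (Q n : ℤ)
noncomputable def G : ℤ⟦X⟧ := PowerSeries.mk DS
/-- `Σ (-1)^(m+1) m q^m/(1+q^m)` -/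
noncomputable def L : ℤ⟦X⟧ := PowerSeries.mk fun n => ∑ d ∈ n.divisors, (-1) ^ (d + n / d) * (d : ℤ)
/-- `Σ σ(n) q^n` -/
noncomputable def S : ℤ⟦X⟧ := PowerSeries.mk fun n => ∑ d ∈ n.divisors, (d : ℤ)

/-- Gauss: `f₁ ψ = f₂²` -/
def TaskPsi : Prop := E1 * psi = E2 ^ 2

/-- `Σ_{m ∈ ℤ} q^(m(m+1)/2) = 2 ψ(q)` -/
def TaskPsiZ : Prop := HasSum (fun m : ℤ => (monomial (tri m) 1 : ℤ⟦X⟧)) (2 * psi)

/-- lattice `u² + 24 x² = 5 m`, `m = 3 α² + 2 β²` -/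
def TaskA : Prop := ∀ n : ℕ, coeff (5 * n + 1) (E1 * phi) =
  -4 * coeff n (psi * E2) + if 5 ∣ n then coeff (n / 5) (E1 * phi) else 0

def TaskB : Prop := ∀ n : ℕ, coeff (5 * n + 1) (T3 * phi) =
  -12 * coeff n (T1 * E2) + 5 * if 5 ∣ n then coeff (n / 5) (T3 * phi) else 0

/-- `r₂(5n) = 2 r₂(n) - r₂(n/5)` with signs -/
def TaskC : Prop := ∀ n : ℕ, coeff (5 * n) (phi ^ 2) =
  2 * coeff n (phi ^ 2) - if 5 ∣ n then coeff (n / 5) (phi ^ 2) else 0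

/-- dissection of `φ(-q)` modulo 5 -/
def TaskD0 : Prop := phi = expand 25 (by norm_num) phi - 2 * X * expand 5 (by norm_num) A3
  + 2 * X ^ 4 * expand 5 (by norm_num) A1

/-- Jacobi's triple product for `f(-q^a, -q^(m-a))` -/
def TaskJTP : Prop := ∀ m a : ℕ, 0 < a → a < m →
  HasProd (fun n : ℕ => ((1 - X ^ (m * n + a)) * (1 - X ^ (m * n + m - a)) *
    (1 - X ^ (m * n + m)) : ℤ⟦X⟧))
    (∑' i : ℤ, monomial ((m : ℤ) * (i * (i - 1) / 2) + a * i).toNat (sg i))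

/-- `f(-q,-q⁹) f(-q³,-q⁷) = f₁ f₁₀³ / (f₂ f₅)`, from `TaskJTP` -/
def TaskD1 : Prop := E2 * E5 * (A1 * A3) = E1 * E10 ^ 3

/-- combinatorial generating function -/
def TaskF1 : Prop := G = Pd * L

/-- `Σ Q(n) q^n = f₂/f₁` -/
def TaskF2 : Prop := Pd * E1 = E2

/-- the lattice part of Jacobi's four squares theorem -/
def TaskF3a : Prop := T1 ^ 2 = phiP * (psi2 + 4 * th psi2) - 4 * psi2 * th phiP

/-- logarithmic derivative of Euler's product -/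
def TaskF3b : Prop := th E1 = -(E1 * S)

/-- divisor sums -/
def TaskF3c : Prop := L = S - 6 * expand 2 (by norm_num) S + 8 * expand 4 (by norm_num) S

/-- `φ(q) = f₂⁵/(f₁² f₄²)` -/
def TaskF3d : Prop := phiP * E1 ^ 2 * E4 ^ 2 = E2 ^ 5

/-- Jacobi's four squares theorem (assembly of F3a, F3b, F3c, F3d, Psi) -/
def TaskF3 : Prop := 8 * L = 1 - phi ^ 4

/-- `DSOME(n) ≡ n Q(n)` modulo 4 -/
def TaskF4 : Prop := ∀ n : ℕ, (4 : ℤ) ∣ DS n - n * Q n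

end Pool.Agent.Q107.PP
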