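import Pool.Agent.Q107.PP.Stmts

/-! `TaskD1` from `TaskJTP` (MP_496c03_nt). -/

set_option autoImplicit false

namespace Pool.Agent.Q107.PP.D1h137

open Finset PowerSeries Filter Topology
open scoped PowerSeries.WithPiTopology
open Pool.Agent.Q107.OD Pool.Agent.Q107.PP

theorem hasProd_expand (p : ℕ) (hp : p ≠ 0) :
    HasProd (fun n => (1 - X ^ (p * (n + 1)) : ℤ⟦X⟧)) (expand p hp E1) := by
  have h : HasProd (fun n => expand (R := ℤ) p hp (1 - X ^ (n + 1) : ℤ⟦X⟧)) (expand p hp E1) :=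
    hasProd_E1.map (expand (R := ℤ) p hp) (continuous_expand p hp)
  simpa [← pow_mul] using h

theorem tendsto_mul_nat (f : ℕ → ℤ⟦X⟧) (a : ℤ⟦X⟧) (h : HasProd f a) (k : ℕ) (hk : 0 < k) :
    Tendsto (fun N => ∏ j ∈ range (k * N), f j) atTop (𝓝 a) := by
  have h1 : Tendsto (fun N : ℕ => k * N) atTop atTop :=
    tendsto_atTop_mono (fun n => Nat.le_mul_of_pos_left n hk) tendsto_id
  exact h.tendsto_prod_nat.comp h1

theorem block (N : ℕ) :
    (∏ j ∈ range (5 * N), (1 - X ^ (2 * (j + 1)) : ℤ⟦X⟧)) *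
      (∏ j ∈ range (2 * N), (1 - X ^ (5 * (j + 1)) : ℤ⟦X⟧)) *
      ((∏ n ∈ range N, ((1 - X ^ (10 * n + 1)) * (1 - X ^ (10 * n + 10 - 1)) *
        (1 - X ^ (10 * n + 10)) : ℤ⟦X⟧)) *
       (∏ n ∈ range N, ((1 - X ^ (10 * n + 3)) * (1 - X ^ (10 * n + 10 - 3)) *
        (1 - X ^ (10 * n + 10)) : ℤ⟦X⟧))) =
    (∏ j ∈ range (10 * N), (1 - X ^ (j + 1) : ℤ⟦X⟧)) *
      (∏ j ∈ range N, (1 - X ^ (10 * (j + 1)) : ℤ⟦X⟧)) ^ 3 := by
  induction N with
  | zero => simp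
  | succ N ih =>
    have e2 : ∏ j ∈ range (5 * (N + 1)), (1 - X ^ (2 * (j + 1)) : ℤ⟦X⟧) =
        (∏ j ∈ range (5 * N), (1 - X ^ (2 * (j + 1)) : ℤ⟦X⟧)) *
        ((1 - X ^ (10 * N + 2)) * (1 - X ^ (10 * N + 4)) * (1 - X ^ (10 * N + 6)) *
        (1 - X ^ (10 * N + 8)) * (1 - X ^ (10 * N + 10))) := by
      rw [show 5 * (N + 1) = 5 * N + 1 + 1 + 1 + 1 + 1 by ring]
      simp only [prod_range_succ]
      rw [show 2 * (5 * N + 1) = 10 * N + 2 by ring, show 2 * (5 * N + 1 + 1) = 10 * N + 4 by ring,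
        show 2 * (5 * N + 1 + 1 + 1) = 10 * N + 6 by ring,
        show 2 * (5 * N + 1 + 1 + 1 + 1) = 10 * N + 8 by ring,
        show 2 * (5 * N + 1 + 1 + 1 + 1 + 1) = 10 * N + 10 by ring]
      ring
    have e5 : ∏ j ∈ range (2 * (N + 1)), (1 - X ^ (5 * (j + 1)) : ℤ⟦X⟧) =
        (∏ j ∈ range (2 * N), (1 - X ^ (5 * (j + 1)) : ℤ⟦X⟧)) *
        ((1 - X ^ (10 * N + 5)) * (1 - X ^ (10 * N + 10))) := by
      rw [show 2 * (N + 1) = 2 * N + 1 + 1 by ring]
      simp only [prod_range_succ]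
      rw [show 5 * (2 * N + 1) = 10 * N + 5 by ring, show 5 * (2 * N + 1 + 1) = 10 * N + 10 by ring]
      ring
    have e1 : ∏ j ∈ range (10 * (N + 1)), (1 - X ^ (j + 1) : ℤ⟦X⟧) =
        (∏ j ∈ range (10 * N), (1 - X ^ (j + 1) : ℤ⟦X⟧)) *
        ((1 - X ^ (10 * N + 1)) * (1 - X ^ (10 * N + 2)) * (1 - X ^ (10 * N + 3)) *
        (1 - X ^ (10 * N + 4)) * (1 - X ^ (10 * N + 5)) * (1 - X ^ (10 * N + 6)) *
        (1 - X ^ (10 * N + 7)) * (1 - X ^ (10 * N + 8)) * (1 - X ^ (10 * N + 9)) *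
        (1 - X ^ (10 * N + 10))) := by
      rw [show 10 * (N + 1) = 10 * N + 1 + 1 + 1 + 1 + 1 + 1 + 1 + 1 + 1 + 1 by ring]
      simp only [prod_range_succ]
      simp only [add_assoc, Nat.reduceAdd]
      ring
    rw [e2, e5, e1, prod_range_succ, prod_range_succ, prod_range_succ (fun j => (1 - X ^ (10 * (j + 1)) : ℤ⟦X⟧)),
      show 10 * N + 10 - 1 = 10 * N + 9 by omega, show 10 * N + 10 - 3 = 10 * N + 7 by omega,
      show 10 * (N + 1) = 10 * N + 10 by ring]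
    linear_combination ((1 - X ^ (10 * N + 1)) * (1 - X ^ (10 * N + 2)) * (1 - X ^ (10 * N + 3)) *
        (1 - X ^ (10 * N + 4)) * (1 - X ^ (10 * N + 5)) * (1 - X ^ (10 * N + 6)) *
        (1 - X ^ (10 * N + 7)) * (1 - X ^ (10 * N + 8)) * (1 - X ^ (10 * N + 9)) *
        (1 - X ^ (10 * N + 10)) ^ 4) * ih

theorem main (h : TaskJTP) : TaskD1 := by
  have hA1 : HasProd (fun n : ℕ => ((1 - X ^ (10 * n + 1)) * (1 - X ^ (10 * n + 10 - 1)) *
      (1 - X ^ (10 * n + 10)) : ℤ⟦X⟧)) A1 := by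
    have := h 10 1 (by norm_num) (by norm_num)
    have e : A1 = ∑' i : ℤ, monomial (((10 : ℕ) : ℤ) * (i * (i - 1) / 2) + ((1 : ℕ) : ℤ) * i).toNat (sg i) := by
      unfold A1
      congr 1
      funext i
      congr 2
      congr 1
      have h2 : i * (i - 1) % 2 = 0 := by
        have := Int.even_mul_pred_self i
        rwa [Int.even_iff] at this
      have h3 : 2 * (i * (i - 1) / 2) = i * (i - 1) := by omega
      push_cast
      linarith
    rw [e]
    exact this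
  have hA3 : HasProd (fun n : ℕ => ((1 - X ^ (10 * n + 3)) * (1 - X ^ (10 * n + 10 - 3)) *
      (1 - X ^ (10 * n + 10)) : ℤ⟦X⟧)) A3 := by
    have := h 10 3 (by norm_num) (by norm_num)
    have e : A3 = ∑' i : ℤ, monomial (((10 : ℕ) : ℤ) * (i * (i - 1) / 2) + ((3 : ℕ) : ℤ) * i).toNat (sg i) := by
      unfold A3
      congr 1
      funext i
      congr 2
      congr 1
      have h2 : i * (i - 1) % 2 = 0 := by
        have := Int.even_mul_pred_self i
        rwa [Int.even_iff] at this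
      have h3 : 2 * (i * (i - 1) / 2) = i * (i - 1) := by omega
      push_cast
      linarith
    rw [e]
    exact this
  have t2 := tendsto_mul_nat _ _ hasProd_E2 5 (by norm_num)
  have t5 := tendsto_mul_nat _ _ (hasProd_expand 5 (by norm_num)) 2 (by norm_num)
  have t1 := tendsto_mul_nat _ _ hasProd_E1 10 (by norm_num)
  have t10 := (hasProd_expand 10 (by norm_num)).tendsto_prod_nat
  have L := (t2.mul t5).mul (hA1.tendsto_prod_nat.mul hA3.tendsto_prod_nat)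
  have R := t1.mul (t10.pow 3)
  unfold TaskD1 E5 E10
  refine tendsto_nhds_unique L ?_
  convert R using 2 with N
  exact block N

end Pool.Agent.Q107.PP.D1h137

/-- `TaskD1` from the triple product -/
theorem Pool.Agent.Q107.PP.taskD1_h137 (h : Pool.Agent.Q107.PP.TaskJTP) :
    Pool.Agent.Q107.PP.TaskD1 := Pool.Agent.Q107.PP.D1h137.main h
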